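import Pool.Agent.H835R3.Main1
import Pool.Agent.H835R3.Main2
import Pool.Agent.H835R3.Smooth
import Pool.Agent.H835R3.Projective

/-!
MP_5ac764_ag, Q1: disproof. For every prime `p` and every perfect field `k` of characteristic `p`
there is a smooth projective globally F-split surface `X` over `k` (the Hirzebruch surface `F_p`) such
that `H¹(X, D^(e)) → H¹(X, D^(e'))` is not injective for all `e' > e ≥ 1`.
-/

set_option autoImplicit false

open CategoryTheory AlgebraicGeometry TopologicalSpace Pool.Agent.H835R3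

namespace Pool.Agent.Results.MP_5ac764_ag.NotInjective

theorem result (p : ℕ) [Fact p.Prime] (k : Type) [Field k] [CharP k p] [PerfectRing k p] :
    ∃ (X : Scheme.{0}) (f : X ⟶ Spec (.of k)),
      IsIntegral X ∧ SmoothOfRelativeDimension 2 f ∧ Stmt.IsProjectiveOver f ∧
      Stmt.GloballyFSplit X p ∧
      ∀ (e e' : ℕ), 1 ≤ e → ∀ h : e < e',
        ¬ Function.Injective (Sheaf.H.map (Stmt.diffOpIncl X p h.le) 1) := by
  refine ⟨XX k p, Stmt.toSpecK (AA k p), inferInstance, smooth_XX, projective_XX k p,
    globallyFSplit_XX, ?_⟩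
  intro e e' he h
  obtain ⟨r, rfl⟩ : ∃ r, e = r + 1 := ⟨e - 1, by omega⟩
  exact not_injective r e' h

end Pool.Agent.Results.MP_5ac764_ag.NotInjective
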